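import Pool.Agent.R942.WR.Betti

/-!
# The cokernel of `N ^ i` in the weight two
-/

set_option autoImplicit false

namespace Pool.Agent.R942.WK

open Module Submodule Pool.Agent.Y143 Pool.Agent.R942.WM Pool.Agent.R942.WB Pool.Agent.R942.WR

universe u v

variable {Ω : Type u} [Field Ω] [CharZero Ω] {Γ : Type} {n q : ℕ}
  {X : SpecialFibre.{u, v} Ω Γ n q}

/-- The pairing between `H^2` and its dual. -/
lemma perf_two {a e : ℕ} (ha : n = a + 3 + e) :
    Perf (X.pair a).flip (X.gr a 2) (X.gr a (4 + 2 * e)) := by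
  constructor
  · intro x hx h
    apply eq_zero_of_pair (m := 2) (m' := 4 + 2 * e) (by omega) hx
    intro y hy
    rw [← pair_comm2 hx]
    exact h y hy
  · intro y hy h
    apply eq_zero_of_pair (m := 4 + 2 * e) (m' := 2) (by omega) hy
    intro x hx
    exact h x hx

/-- A class whose differential is the Gysin image of a component is a combination. -/
lemma rel_two {a : ℕ} {y : X.C}
    (hy : y ∈ Zc X.diff X.tot ((a + 1 : ℕ) : ℤ) (((a + 1 + 2 : ℕ) : ℤ) - n)) {u : X.H a}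
    (hu : u ∈ X.gr a 2) (hug : X.gys a (X.res a u) = X.gys a (y (a + 1))) :
    y ∈ Zc X.diff X.tot (-((a + 1 : ℕ) : ℤ)) (((a + 1 + 2 : ℕ) : ℤ) - n) ⊔
      Bd X.diff X.tot ((a + 1 : ℕ) : ℤ) (((a + 1 + 2 : ℕ) : ℤ) - n) := by
  have hz := fam_mem (X := X) (a := a) (k := 2) hu (c := 0) (Submodule.zero_mem _)
  set z := fam a u (0 : X.H (a + 2)) with hzdef
  have hk : (2 : ℕ) ≤ 2 := le_rfl
  have hdz : X.diff a z ∈ X.tot ((a + 1 : ℕ) : ℤ) (((a + 1 + 2 : ℕ) : ℤ) - n) := by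
    have h9 := X.diff_mem (r := (a : ℤ)) hz
    exact X.mem_E₁_cast (by push_cast; ring) (by push_cast; ring) h9
  have hdd : X.diff ((a + 1 : ℕ) : ℤ) (X.diff a z) = 0 := by
    have := X.diff_diff (r := (a : ℤ)) hz
    rwa [show ((a : ℤ) + 1) = ((a + 1 : ℕ) : ℤ) by push_cast; ring] at this
  have hy2' : X.diff ((a + 1 : ℕ) : ℤ) y = 0 := hy.2
  refine Submodule.mem_sup.2 ⟨y - X.diff a z, ?_, X.diff a z, ?_, by abel⟩
  · have hx : y - X.diff a z ∈ X.tot ((a + 1 : ℕ) : ℤ) (((a + 1 + 2 : ℕ) : ℤ) - n) :=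
      Submodule.sub_mem _ hy.1 hdz
    have hxn := hx
    rw [← tot_neg] at hxn
    refine ⟨hxn, ?_⟩
    rw [SetLike.mem_coe, LinearMap.mem_ker]
    have hdx : X.diff ((a + 1 : ℕ) : ℤ) (y - X.diff a z) = 0 := by
      rw [map_sub, hy2', hdd, sub_zero]
    funext b
    by_cases hb : b = a
    · subst hb
      rw [diff_neg_val hxn, Pi.sub_apply, (diff_vals hk hz).1, hzdef, fam_left, fam_right,
        map_zero, add_zero, map_sub, hug, sub_self]
      rfl
    · rw [X.diff_apply]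
      by_cases hc : InColumn (-(((a + 1 : ℕ) : ℤ)) + 1) b
      · rw [X.cut_of hc]
        rw [show (-(((a + 1 : ℕ) : ℤ)) + 1) = -((a : ℕ) : ℤ) by push_cast; ring, col_neg] at hc
        have hb2 : a + 2 ≤ b := by
          obtain ⟨h4, h5⟩ := hc
          omega
        have hcol : InColumn (((a + 1 : ℕ) : ℤ) + 1) b := by
          have := (col_pos (a + 2) b).2 ⟨hb2, by push_cast; omega⟩
          rwa [show ((a + 2 : ℕ) : ℤ) = ((a + 1 : ℕ) : ℤ) + 1 by push_cast; ring] at this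
        have := congrFun hdx b
        rw [diff_of hcol] at this
        exact this
      · rw [X.cut_of_not hc]
        rfl
  · exact ⟨z, tot_cast (by push_cast; ring) (by push_cast; ring) hz,
      diff_cast (by push_cast; ring) z⟩

/-- The dimension of the cokernel in the weight two. -/
lemma cok_two (A : DivisorClasses X) {a e : ℕ} (ha : n = a + 3 + e) :
    cok X.diff X.tot ((a + 1 : ℕ) : ℤ) (((a + 3 : ℕ) : ℤ) - n) ≤
      finrank Ω (X.gr a 4) - finrank Ω (Submodule.span Ω (A.A1 a : Set (X.H a))) := by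
  rw [show (((a + 3 : ℕ) : ℤ) - n) = (((a + 1 + 2 : ℕ) : ℤ) - n) by push_cast; ring]
  set S := Submodule.span Ω (A.A1 a : Set (X.H a)) with hS
  have hSle : S ≤ X.gr a 2 := Submodule.span_le.2 fun x hx => A.A1_le a x hx
  set Z := Zc X.diff X.tot ((a + 1 : ℕ) : ℤ) (((a + 1 + 2 : ℕ) : ℤ) - n) with hZ
  set Z0 := Zc X.diff X.tot (-((a + 1 : ℕ) : ℤ)) (((a + 1 + 2 : ℕ) : ℤ) - n) ⊔
    Bd X.diff X.tot ((a + 1 : ℕ) : ℤ) (((a + 1 + 2 : ℕ) : ℤ) - n) with hZ0
  have hle : Z0 ≤ Z := by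
    apply sup_le _ (bd_le_zc' _ _)
    rintro x ⟨h1, h2⟩
    rw [tot_neg] at h1
    exact ⟨h1, X.diff_out (w := 0) (by push_cast; omega) h2⟩
  let g : X.C →ₗ[Ω] X.H a := X.gys a ∘ₗ LinearMap.proj (a + 1)
  have hg : ∀ y, g y = X.gys a (y (a + 1)) := fun _ => rfl
  set GZ := Z.map g with hGZ
  set GB := (X.gr a 2).map (X.gys a ∘ₗ X.res a) with hGB
  have hZ2 : ∀ y ∈ Z, y (a + 1) ∈ X.gr (a + 1) 2 := fun y hy =>
    tot_deg hy.1 (by push_cast; ring)
  have hGZ4 : GZ ≤ X.gr a 4 := by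
    rintro _ ⟨y, hy, rfl⟩
    exact X.gys_gr a 2 _ (hZ2 y hy)
  have hGBZ : GB ≤ GZ := by
    rintro _ ⟨u, hu, rfl⟩
    have hz := fam_mem (X := X) (a := a) (k := 2) hu (c := 0) (Submodule.zero_mem _)
    have hdz : X.diff a (fam a u 0) ∈ X.tot ((a + 1 : ℕ) : ℤ) (((a + 1 + 2 : ℕ) : ℤ) - n) := by
      have h9 := X.diff_mem (r := (a : ℤ)) hz
      exact X.mem_E₁_cast (by push_cast; ring) (by push_cast; ring) h9
    refine ⟨X.diff a (fam a u 0), ⟨hdz, ?_⟩, ?_⟩
    · have := X.diff_diff (r := (a : ℤ)) hz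
      rw [show ((a : ℤ) + 1) = ((a + 1 : ℕ) : ℤ) by push_cast; ring] at this
      exact this
    · rw [hg, (diff_vals le_rfl hz).1, fam_left, fam_right, map_zero, add_zero]
      rfl
  -- step one
  have h1 : (finrank Ω Z : ℤ) - finrank Ω Z0 ≤ finrank Ω GZ - finrank Ω GB := by
    refine finrank_rel (LinearMap.graph g) hle hGBZ (fun y hy => ⟨g y, ⟨y, hy, rfl⟩, ?_⟩)
      (fun y x hy hx hyx hx0 => ?_)
    · rw [LinearMap.mem_graph_iff]
    · rw [LinearMap.mem_graph_iff] at hyx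
      have hyx' : x = g y := hyx
      obtain ⟨u, hu, hux⟩ := hx0
      rw [hyx', hg] at hux
      exact rel_two hy hu hux
  -- step two
  have e1 := finrank_map_add_ker (X.lef a ^ e) GZ
  have e2 := finrank_map_add_ker (X.lef a ^ e) GB
  have e3 : finrank Ω (GZ ⊓ LinearMap.ker (X.lef a ^ e) : Submodule Ω (X.H a)) ≤
      finrank Ω (X.gr a 4 ⊓ LinearMap.ker (X.lef a ^ e) : Submodule Ω (X.H a)) :=
    Submodule.finrank_mono (inf_le_inf_right _ hGZ4)
  have e4 := lef_ker (X := X) (a := a) (D := e + 3) (i := 2) (by omega) (by omega)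
  have e4' : finrank Ω (X.gr a 4 ⊓ LinearMap.ker (X.lef a ^ e) : Submodule Ω (X.H a)) +
      finrank Ω (X.gr a 2) ≤ finrank Ω (X.gr a 4) := by
    rw [show e + 3 - 2 - 1 = e by omega] at e4
    simpa using e4
  -- step three
  have hperf := perf_two (X := X) ha
  set LZ := GZ.map (X.lef a ^ e) with hLZ
  set LB := GB.map (X.lef a ^ e) with hLB
  have hLZle : LZ ≤ X.gr a (4 + 2 * e) := by
    rintro _ ⟨y, hy, rfl⟩
    exact lef_pow_gr (hGZ4 hy) e
  have hLBle : LB ≤ X.gr a (4 + 2 * e) := (Submodule.map_mono hGBZ).trans hLZle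
  have f1 := hperf.flip.finrank_annR hLZle
  have f2 := hperf.flip.finrank_annR hLBle
  set RZ := annR (X.pair a).flip.flip LZ (X.gr a 2) with hRZ
  set RB := annR (X.pair a).flip.flip LB (X.gr a 2) with hRB
  have hkey : RB ⊓ S ≤ RZ := by
    rintro u ⟨⟨hu, hu1⟩, hu2⟩
    refine ⟨hu, ?_⟩
    rintro _ ⟨_, ⟨z, hz, rfl⟩, rfl⟩
    obtain ⟨c', hc', h4, h5⟩ := two_inj A ha hu2 (Submodule.zero_mem (X.gr (a + 2) 0))
      (fun u' hu' => by
        rw [map_zero, add_zero]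
        have h6 := hu1 _ ⟨_, ⟨u', hu', rfl⟩, rfl⟩
        have h7 : X.pair a ((X.lef a ^ e) (X.gys a (X.res a u'))) u = 0 := h6
        rw [pair_comm2 hu, ← gys_lef_pow, ← X.pair_res] at h7
        exact h7)
    rw [map_zero, add_zero] at h4
    rw [map_zero] at h5
    show X.pair a ((X.lef a ^ e) (g z)) u = 0
    rw [pair_comm2 hu, hg, ← gys_lef_pow, ← X.pair_res, h4]
    have h6 : X.res (a + 1) (z (a + 1)) + X.gys (a + 2) (z (a + 3)) = 0 := by
      have hcol : InColumn (((a + 1 : ℕ) : ℤ) + 1) (a + 2) := by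
        have := (col_pos (a + 2) (a + 2)).2 ⟨le_rfl, by simp⟩
        rwa [show ((a + 2 : ℕ) : ℤ) = ((a + 1 : ℕ) : ℤ) + 1 by push_cast; ring] at this
      have := congrFun (show X.diff ((a + 1 : ℕ) : ℤ) z = 0 from hz.2) (a + 2)
      rw [diff_of hcol] at this
      exact this
    rw [X.pair_gys, res_lef_pow, eq_neg_of_add_eq_zero_left h6, map_neg, map_neg, ← gys_lef_pow,
      ← X.pair_res, ← h5, map_zero, LinearMap.zero_apply, neg_zero]
  have f3 := finrank_inf_sub (show S ≤ X.gr a 2 from hSle) RB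
  have f4 : X.gr a 2 ⊓ RB = RB := inf_eq_right.2 fun y hy => hy.1
  rw [f4] at f3
  have f5 := Submodule.finrank_mono hkey
  rw [inf_comm RB S] at f5
  unfold cok
  rw [← hZ, ← hZ0]
  omega

end Pool.Agent.R942.WK
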