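import Pool.Agent.Y143.Divisors

/-!
# Projective SNCL schemes over families of log points: definitions

`S` is a family of log points and `X` is an SNCL scheme over `S`, projective over `S°` of relative
dimension `n`. For a geometric point `s` of `S°`, the stalk at `s` of the Kummer log etale higher
direct image `H^i = R^i f_* ℚ_l` (with coefficients extended to an algebraic closure `Ω` of `ℚ_l`) is
a finite-dimensional space `V s i` with the weight filtration `P s i` and the monodromy operator
`N s i`.

The fibre of `X` over `s` is defined over a finitely generated ring and specializes to an SNCL scheme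
over a log point whose underlying field is finite, with `q s` elements: the specialization map
identifies the stalks, the weight filtrations and the monodromy operators. The cohomology of the
special member is given by `model s : SemistableModel Ω Γ n (q s)`, the structure which consists of
the cohomology of the strata, the log cohomology and the `l`-adic weight spectral sequence (here
`(model s).H a` is the cohomology of the disjoint union `X°^(a)` of the `(a + 1)`-fold intersections of
the smooth components, over an algebraic closure), and the classes of divisors on the strata are given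
by `classes s`.
-/

set_option autoImplicit false

namespace Pool.Agent.R942.WK

open Module Pool.Agent.Y143

universe u v

/-- The log cohomology of a projective SNCL scheme over a family of log points, at all geometric
points: the spaces with their weight filtration and monodromy operator, and the identification with
the log cohomology of a specialization over a finite field. -/
structure LogFamily (Ω : Type u) [Field Ω] [CharZero Ω] (Γ : Type) (n : ℕ) where
  Point : Type
  V : Point → ℕ → Type v
  [addCommGroup : ∀ s i, AddCommGroup (V s i)]
  [module : ∀ s i, Module Ω (V s i)]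
  P : ∀ s i, ℤ → Submodule Ω (V s i)
  N : ∀ s i, Module.End Ω (V s i)
  q : Point → ℕ
  model : ∀ s, SemistableModel.{u, v} Ω Γ n (q s)
  classes : ∀ s, DivisorClasses (model s).toSpecialFibre
  iso : ∀ s i, V s i ≃ₗ[Ω] (model s).V i
  iso_N : ∀ s i x, iso s i (N s i x) = (model s).N i (iso s i x)
  iso_P : ∀ s i w x, x ∈ P s i w ↔ iso s i x ∈ (model s).W i w

attribute [instance] LogFamily.addCommGroup LogFamily.module

section Dim

variable {Ω : Type u} [Field Ω] {V : Type v} [AddCommGroup V] [Module Ω V]

/-- The dimension of the kernel of the map from `P a / P (a - 1)` to `P b / P (b - 1)` induced by `f`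
(for `f` which maps `P a` to `P b` and `P (a - 1)` to `P (b - 1)`). -/
noncomputable def kerDim (f : Module.End Ω V) (P : ℤ → Submodule Ω V) (a b : ℤ) : ℤ :=
  finrank Ω (P a ⊓ (P (b - 1)).comap f : Submodule Ω V) - finrank Ω (P (a - 1))

/-- The dimension of the cokernel of the map from `P a / P (a - 1)` to `P b / P (b - 1)` induced by
`f` (for `f` which maps `P a` to `P b` and `P (a - 1)` to `P (b - 1)`). -/
noncomputable def cokDim (f : Module.End Ω V) (P : ℤ → Submodule Ω V) (a b : ℤ) : ℤ :=
  finrank Ω (P b) - finrank Ω ((P a).map f ⊔ P (b - 1) : Submodule Ω V)

end Dim

namespace LogFamily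

variable {Ω : Type u} [Field Ω] [CharZero Ω] {Γ : Type} {n : ℕ} (F : LogFamily.{u, v} Ω Γ n)

/-- The dimension of the kernel of `N ^ e : gr^P_(i + e) H^i → gr^P_(i - e) H^i`. -/
noncomputable def Ker (s : F.Point) (i e : ℕ) : ℤ :=
  kerDim (F.N s i ^ e) (F.P s i) ((i : ℤ) + e) ((i : ℤ) - e)

/-- The dimension of the cokernel of `N ^ e : gr^P_(i + e) H^i → gr^P_(i - e) H^i`. -/
noncomputable def Cok (s : F.Point) (i e : ℕ) : ℤ :=
  cokDim (F.N s i ^ e) (F.P s i) ((i : ℤ) + e) ((i : ℤ) - e)

/-- The Betti number `b_j` of the stratum `X°^(a)` (the `(a + 1)`-fold intersections). -/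
noncomputable def betti (s : F.Point) (a : ℕ) (j : ℤ) : ℤ := finrank Ω ((F.model s).gr a j)

/-- The dimension `ρ` of the space spanned by the classes of divisors in `H^2(X°^(a))`. -/
noncomputable def rho (s : F.Point) (a : ℕ) : ℤ :=
  finrank Ω (Submodule.span Ω ((F.classes s).A1 a : Set ((F.model s).H a)))

end LogFamily

end Pool.Agent.R942.WK
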