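import Pool.Agent.R942.WK.Cok
import Pool.Agent.R942.WK.Defs

/-!
# The kernel and the cokernel of `N ^ e` on the graded pieces of the weight filtration
-/

set_option autoImplicit false

namespace Pool.Agent.R942.WK

open Module Submodule Pool.Agent.Y143 Pool.Agent.R942.WM Pool.Agent.R942.WB Pool.Agent.R942.WR

universe u v

section Model

variable {Ω : Type u} [Field Ω] [CharZero Ω] {Γ : Type} {n q : ℕ}
  (X : SemistableModel.{u, v} Ω Γ n q)

lemma ker_le (m e : ℕ) (he : 1 ≤ e) : kerDim (X.N m ^ e) (X.W m) ((m : ℤ) + e) ((m : ℤ) - e) ≤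
    kap X.diff X.tot e ((m : ℤ) - n) := by
  have := finite_V X m
  have hle : X.W m ((m : ℤ) + e - 1) ≤
      X.W m ((m : ℤ) + e) ⊓ (X.W m ((m : ℤ) - e - 1)).comap (X.N m ^ e) := by
    intro v hv
    refine ⟨X.W_mono m (by omega) hv, ?_⟩
    exact X.W_cast (by ring) (N_pow_W X hv e)
  refine finrank_rel (X.sp m ((m : ℤ) + e)) hle
    (z := Zc X.diff X.tot (-e) ((m : ℤ) - n) ⊓ Bd X.diff X.tot e ((m : ℤ) - n))
    (z0 := Bd X.diff X.tot (-e) ((m : ℤ) - n)) ?_ ?_ ?_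
  · apply le_inf (bd_le_zc' _ _)
    rintro _ ⟨x, hx, rfl⟩
    refine ⟨x, ?_, ?_⟩
    · have h1 := hx
      unfold SpecialFibre.tot at h1 ⊢
      have h2 : x ∈ X.E₁ ((e : ℤ) + 1) ((n : ℤ) + ((m : ℤ) - n - 1) - (e + 1)) := by
        have h3 := X.E₁_neg ((e : ℤ) + 1) ((n : ℤ) + ((m : ℤ) - n - 1) - (e + 1))
        rw [← h3]
        exact X.mem_E₁_cast (by ring) (by ring) h1
      exact X.mem_E₁_cast rfl (by ring) (X.E₁_incl (by omega) h2)
    · rw [← X.diff_neg]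
  · rintro v ⟨hv1, hv2⟩
    obtain ⟨x, hx⟩ := X.sp_left m _ v hv1
    refine ⟨x, ⟨?_, ?_⟩, hx⟩
    · rw [hzc]
      have := (X.sp_mem m _ _ _ hx).2
      rwa [show (m : ℤ) - (m + e) = -e by ring, show (m : ℤ) + e = m - -e by ring] at this
    · have h2 := X.N_pow_sp hx e le_rfl
      have h3 := (X.sp_ker m _ _ _ h2).1 (X.W_cast (by ring) hv2)
      rw [hbd]
      rwa [show (m : ℤ) - ((m : ℤ) + e - 2 * e) = e by ring,
        show (m : ℤ) + e - 2 * e = m - e by ring] at h3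
  · intro v x hv hx hvx hx0
    refine (X.sp_ker m _ _ _ hvx).2 ?_
    rw [hbd] at hx0
    rwa [show (m : ℤ) - (m + e) = -e by ring, show (m : ℤ) + e = m - -e by ring]

lemma cok_le (m e : ℕ) (he : 1 ≤ e) : cokDim (X.N m ^ e) (X.W m) ((m : ℤ) + e) ((m : ℤ) - e) ≤
    cok X.diff X.tot e ((m : ℤ) - n) := by
  have := finite_V X m
  have hle : (X.W m ((m : ℤ) + e)).map (X.N m ^ e) ⊔ X.W m ((m : ℤ) - e - 1) ≤
      X.W m ((m : ℤ) - e) := by
    apply sup_le
    · rintro _ ⟨v, hv, rfl⟩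
      exact X.W_cast (by ring) (N_pow_W X hv e)
    · exact X.W_mono m (by omega)
  unfold cok
  refine finrank_rel (X.sp m ((m : ℤ) - e)) hle
    (z := Zc X.diff X.tot e ((m : ℤ) - n))
    (z0 := Zc X.diff X.tot (-e) ((m : ℤ) - n) ⊔ Bd X.diff X.tot e ((m : ℤ) - n)) ?_ ?_ ?_
  · apply sup_le _ (bd_le_zc' _ _)
    rintro x ⟨h1, h2⟩
    rw [tot_neg] at h1
    exact ⟨h1, X.diff_out (w := 0) (by omega) h2⟩
  · intro v hv
    obtain ⟨x, hx⟩ := X.sp_left m _ v hv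
    refine ⟨x, ?_, hx⟩
    rw [hzc]
    have := (X.sp_mem m _ _ _ hx).2
    rwa [show (m : ℤ) - (m - e) = e by ring] at this
  · intro v x hv hx hvx hx0
    obtain ⟨x1, hx1, b, hb, rfl⟩ := Submodule.mem_sup.1 hx0
    rw [hzc] at hx1
    obtain ⟨v1, hv1⟩ := X.sp_right m ((m : ℤ) + e) x1 (by
      rwa [show (m : ℤ) - (m + e) = -e by ring, show (m : ℤ) + e = m - -e by ring])
    have h1 := X.N_pow_sp hv1 e le_rfl
    have h2 : (v - (X.N m ^ e) v1, b) ∈ X.sp m ((m : ℤ) - e) := by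
      have h3 := Submodule.sub_mem _ hvx (X.sp_cast (show (m : ℤ) + e - 2 * e = m - e by ring) h1)
      have h4 : b = (x1 + b) - x1 := by abel
      rw [h4]
      exact h3
    have h3 : v - (X.N m ^ e) v1 ∈ X.W m ((m : ℤ) - e - 1) := by
      refine (X.sp_ker m _ _ _ h2).2 ?_
      rw [show (m : ℤ) - (m - e) = e by ring, ← hbd]
      exact hb
    exact Submodule.mem_sup.2 ⟨(X.N m ^ e) v1, ⟨v1, (X.sp_mem m _ _ _ hv1).1, rfl⟩, _, h3,
      by abel⟩

lemma ker_nonneg (m e : ℕ) :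
    0 ≤ kerDim (X.N m ^ e) (X.W m) ((m : ℤ) + e) ((m : ℤ) - e) := by
  have := finite_V X m
  have hle : X.W m ((m : ℤ) + e - 1) ≤
      X.W m ((m : ℤ) + e) ⊓ (X.W m ((m : ℤ) - e - 1)).comap (X.N m ^ e) := by
    intro v hv
    refine ⟨X.W_mono m (by omega) hv, ?_⟩
    exact X.W_cast (by ring) (N_pow_W X hv e)
  have := Submodule.finrank_mono hle
  unfold kerDim
  omega

lemma cok_nonneg (m e : ℕ) :
    0 ≤ cokDim (X.N m ^ e) (X.W m) ((m : ℤ) + e) ((m : ℤ) - e) := by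
  have := finite_V X m
  have hle : (X.W m ((m : ℤ) + e)).map (X.N m ^ e) ⊔ X.W m ((m : ℤ) - e - 1) ≤
      X.W m ((m : ℤ) - e) := by
    apply sup_le
    · rintro _ ⟨v, hv, rfl⟩
      exact X.W_cast (by ring) (N_pow_W X hv e)
    · exact X.W_mono m (by omega)
  have := Submodule.finrank_mono hle
  unfold cokDim
  omega

end Model

namespace LogFamily

variable {Ω : Type u} [Field Ω] [CharZero Ω] {Γ : Type} {n : ℕ} (F : LogFamily.{u, v} Ω Γ n)

lemma iso_pow (s : F.Point) (i e : ℕ) (x : F.V s i) :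
    F.iso s i ((F.N s i ^ e) x) = ((F.model s).N i ^ e) (F.iso s i x) := by
  induction e with
  | zero => rfl
  | succ e ih =>
    rw [pow_succ', pow_succ', Module.End.mul_apply, Module.End.mul_apply, F.iso_N, ih]

lemma P_eq (s : F.Point) (i : ℕ) (w : ℤ) :
    F.P s i w = ((F.model s).W i w).comap (F.iso s i).toLinearMap := by
  ext x
  exact F.iso_P s i w x

lemma map_P (s : F.Point) (i : ℕ) (w : ℤ) :
    (F.P s i w).map (F.iso s i).toLinearMap = (F.model s).W i w := by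
  rw [P_eq, Submodule.map_comap_eq, LinearEquiv.range, top_inf_eq]

lemma Ker_eq (s : F.Point) (i e : ℕ) : F.Ker s i e =
    kerDim ((F.model s).N i ^ e) ((F.model s).W i) ((i : ℤ) + e) ((i : ℤ) - e) := by
  unfold Ker kerDim
  have h1 : (F.P s i ((i : ℤ) + e) ⊓ (F.P s i ((i : ℤ) - e - 1)).comap (F.N s i ^ e) :
      Submodule Ω (F.V s i)).map (F.iso s i).toLinearMap =
      (F.model s).W i ((i : ℤ) + e) ⊓
        ((F.model s).W i ((i : ℤ) - e - 1)).comap ((F.model s).N i ^ e) := by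
    apply le_antisymm
    · rintro _ ⟨x, ⟨hx1, hx2⟩, rfl⟩
      refine ⟨(F.iso_P s i _ x).1 hx1, ?_⟩
      have h2 := (F.iso_P s i _ _).1 hx2
      rwa [iso_pow] at h2
    · rintro y ⟨hy1, hy2⟩
      refine ⟨(F.iso s i).symm y, ⟨(F.iso_P s i _ _).2 ?_, (F.iso_P s i _ _).2 ?_⟩, ?_⟩
      · simpa using hy1
      · rw [iso_pow]
        simpa using hy2
      · simp
  rw [← h1, ← map_P F s i ((i : ℤ) + e - 1), LinearEquiv.finrank_map_eq,
    LinearEquiv.finrank_map_eq]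

lemma Cok_eq (s : F.Point) (i e : ℕ) : F.Cok s i e =
    cokDim ((F.model s).N i ^ e) ((F.model s).W i) ((i : ℤ) + e) ((i : ℤ) - e) := by
  unfold Cok cokDim
  have h1 : ((F.P s i ((i : ℤ) + e)).map (F.N s i ^ e) ⊔ F.P s i ((i : ℤ) - e - 1) :
      Submodule Ω (F.V s i)).map (F.iso s i).toLinearMap =
      ((F.model s).W i ((i : ℤ) + e)).map ((F.model s).N i ^ e) ⊔
        (F.model s).W i ((i : ℤ) - e - 1) := by
    rw [Submodule.map_sup, map_P, ← map_P F s i ((i : ℤ) + e)]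
    congr 1
    rw [← Submodule.map_comp, ← Submodule.map_comp]
    congr 1
    ext x
    exact F.iso_pow s i e x
  rw [← h1, ← map_P F s i ((i : ℤ) - e), LinearEquiv.finrank_map_eq,
    LinearEquiv.finrank_map_eq]

lemma Ker_nonneg (s : F.Point) (m e : ℕ) : 0 ≤ F.Ker s m e := by
  rw [Ker_eq]
  exact ker_nonneg _ m e

lemma Cok_nonneg (s : F.Point) (m e : ℕ) : 0 ≤ F.Cok s m e := by
  rw [Cok_eq]
  exact cok_nonneg _ m e

lemma Ker_le (s : F.Point) (m e : ℕ) (he : 1 ≤ e) :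
    F.Ker s m e ≤ kap (F.model s).diff (F.model s).tot e ((m : ℤ) - n) := by
  rw [Ker_eq]
  exact ker_le _ m e he

lemma Cok_le (s : F.Point) (m e : ℕ) (he : 1 ≤ e) :
    F.Cok s m e ≤ cok (F.model s).diff (F.model s).tot e ((m : ℤ) - n) := by
  rw [Cok_eq]
  exact cok_le _ m e he

lemma finite (s : F.Point) (i : ℕ) : FiniteDimensional Ω (F.V s i) := by
  have := finite_V (F.model s) i
  exact Module.Finite.equiv (F.iso s i).symm

/-- The kernel in the degree `2 n - m` and the cokernel in the degree `m`. -/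
lemma Ker_dual (s : F.Point) {m e : ℕ} (hm : m ≤ n) (he : 1 ≤ e) :
    F.Ker s (2 * n - m) e ≤ cok (F.model s).diff (F.model s).tot e ((m : ℤ) - n) := by
  refine (F.Ker_le s _ e he).trans ?_
  rw [cok_dual _ (by omega), dual_index hm]

/-- The cokernel in the degree `2 n - m` and the kernel in the degree `m`. -/
lemma Cok_dual (s : F.Point) {m e : ℕ} (hm : m ≤ n) (he : 1 ≤ e) :
    F.Cok s (2 * n - m) e ≤ kap (F.model s).diff (F.model s).tot e ((m : ℤ) - n) := by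
  refine (F.Cok_le s _ e he).trans ?_
  rw [cok_dual _ (by omega), dual_index hm, neg_neg]

/-- `N ^ e` is injective in the degree `m`, and surjective in the degree `2 n - m`. -/
lemma inj_both (s : F.Point) {m e : ℕ} (hm : m ≤ n) (he : 1 ≤ e)
    (h : NInj (F.model s).diff (F.model s).tot e ((m : ℤ) - n)) :
    F.Ker s m e = 0 ∧ F.Cok s (2 * n - m) e = 0 := by
  have hk : kap (F.model s).diff (F.model s).tot e ((m : ℤ) - n) ≤ 0 := by
    have h1 := Submodule.finrank_mono h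
    unfold kap
    omega
  exact ⟨le_antisymm ((F.Ker_le s m e he).trans hk) (F.Ker_nonneg s _ _),
    le_antisymm ((F.Cok_dual s hm he).trans hk) (F.Cok_nonneg s _ _)⟩

/-- `N ^ e` is surjective in the degree `m`, and injective in the degree `2 n - m`. -/
lemma surj_both (s : F.Point) {m e : ℕ} (hm : m ≤ n) (he : 1 ≤ e)
    (h : NSurj (F.model s).diff (F.model s).tot e ((m : ℤ) - n)) :
    F.Cok s m e = 0 ∧ F.Ker s (2 * n - m) e = 0 := by
  have hk : cok (F.model s).diff (F.model s).tot e ((m : ℤ) - n) ≤ 0 := by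
    have h1 := Submodule.finrank_mono h
    unfold cok
    omega
  exact ⟨le_antisymm ((F.Cok_le s m e he).trans hk) (F.Cok_nonneg s _ _),
    le_antisymm ((F.Ker_dual s hm he).trans hk) (F.Ker_nonneg s _ _)⟩

/-- The weight zero. -/
theorem layer_zero (s : F.Point) {m : ℕ} (hm : 1 ≤ m) (hmn : m ≤ n) :
    (F.Ker s m m = 0 ∧ F.Cok s m m = 0) ∧
      F.Ker s (2 * n - m) m = 0 ∧ F.Cok s (2 * n - m) m = 0 := by
  have h1 := F.inj_both s hmn hm (inj_top (F.classes s) hm)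
  have h2 := F.surj_both s hmn hm (surj_top (F.classes s) hm hmn)
  exact ⟨⟨h1.1, h2.1⟩, h2.2, h1.2⟩

/-- The weight one. -/
theorem layer_one (s : F.Point) {m : ℕ} (hm : 2 ≤ m) (hmn : m ≤ n) :
    (F.Ker s m (m - 1) = 0 ∧
      F.Cok s m (m - 1) ≤ F.betti s (m - 2) 3 - F.betti s (m - 2) 1) ∧
    (F.Cok s (2 * n - m) (m - 1) = 0 ∧
      F.Ker s (2 * n - m) (m - 1) ≤ F.betti s (m - 2) 3 - F.betti s (m - 2) 1) ∧
    (m = n → F.Cok s m (m - 1) = 0) := by
  have h1 := F.inj_both s hmn (show 1 ≤ m - 1 by omega) (inj_two (F.classes s) hm)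
  have h2 : cok (F.model s).diff (F.model s).tot ((m - 1 : ℕ) : ℤ) ((m : ℤ) - n) ≤
      F.betti s (m - 2) 3 - F.betti s (m - 2) 1 := by
    obtain ⟨a, rfl⟩ : ∃ a, m = a + 2 := ⟨m - 2, by omega⟩
    obtain ⟨e, he⟩ : ∃ e, n = a + 2 + e := ⟨n - (a + 2), by omega⟩
    exact cok_one (F.classes s) he
  refine ⟨⟨h1.1, (F.Cok_le s _ _ (by omega)).trans h2⟩,
    ⟨h1.2, (F.Ker_dual s hmn (by omega)).trans h2⟩, fun h => ?_⟩
  exact (F.surj_both s hmn (show 1 ≤ m - 1 by omega)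
    (surj_two (F.classes s) hm hmn (Or.inl h))).1

/-- The weight two. -/
theorem layer_two (s : F.Point) {m : ℕ} (hm : 3 ≤ m) (hmn : m ≤ n) :
    (F.Ker s m (m - 2) ≤ F.betti s (m - 3) 2 - F.rho s (m - 3) ∧
      F.Cok s m (m - 2) ≤ F.betti s (m - 3) 4 - F.rho s (m - 3)) ∧
    (F.Cok s (2 * n - m) (m - 2) ≤ F.betti s (m - 3) 2 - F.rho s (m - 3) ∧
      F.Ker s (2 * n - m) (m - 2) ≤ F.betti s (m - 3) 4 - F.rho s (m - 3)) ∧
    (m = n → F.Cok s m (m - 2) ≤ F.betti s (m - 3) 2 - F.rho s (m - 3)) := by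
  have h1 : kap (F.model s).diff (F.model s).tot ((m - 2 : ℕ) : ℤ) ((m : ℤ) - n) ≤
      F.betti s (m - 3) 2 - F.rho s (m - 3) := by
    obtain ⟨a, rfl⟩ : ∃ a, m = a + 3 := ⟨m - 3, by omega⟩
    obtain ⟨e, he⟩ : ∃ e, n = a + 3 + e := ⟨n - (a + 3), by omega⟩
    exact kap_le (F.classes s) he
  have h2 : cok (F.model s).diff (F.model s).tot ((m - 2 : ℕ) : ℤ) ((m : ℤ) - n) ≤
      F.betti s (m - 3) 4 - F.rho s (m - 3) := by
    obtain ⟨a, rfl⟩ : ∃ a, m = a + 3 := ⟨m - 3, by omega⟩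
    obtain ⟨e, he⟩ : ∃ e, n = a + 3 + e := ⟨n - (a + 3), by omega⟩
    exact cok_two (F.classes s) he
  refine ⟨⟨(F.Ker_le s _ _ (by omega)).trans h1, (F.Cok_le s _ _ (by omega)).trans h2⟩,
    ⟨(F.Cok_dual s hmn (by omega)).trans h1, (F.Ker_dual s hmn (by omega)).trans h2⟩,
    fun h => ?_⟩
  refine (F.Cok_le s _ _ (by omega)).trans ?_
  rw [cok_dual _ (by omega), show -((m : ℤ) - n) = (m : ℤ) - n by omega]
  exact h1

end LogFamily

end Pool.Agent.R942.WK
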